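import Pool.Agent.Helper52.EK.Defs
set_option autoImplicit false
open Complex MeasureTheory Metric Set
open scoped Real ComplexConjugate

/-! Project EK, module E1d: the comparison function `kap a` is square integrably close to 1. -/

namespace Pool.Agent.Helper16.EK

open Pool.Agent.Helper39.Area Pool.Agent.Helper52.EK

theorem tau_pos {a : ℝ} (h0 : 0 < a) (h1 : a < 1) : 0 < tau a := by
  unfold tau
  exact div_pos (by linarith) (by linarith)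

theorem norm_kap_sub_one {a ξ η : ℝ} (h0 : 0 < a) (h1 : a < 1) (h2 : Real.log (tau a) + 1 ≤ ξ)
    (h3 : ξ ≤ -1) :
    ‖kap a (pt ξ η) - 1‖ ^ 2 ≤
      8 * (Real.exp (4 * ξ) + 9 * (tau a ^ 4 * Real.exp (-(4 * ξ)))) := by
  have ht : 0 < tau a := tau_pos h0 h1
  set t : ℝ := tau a with htd
  set r : ℝ := Real.exp ξ with hr
  have hr0 : 0 < r := Real.exp_pos _
  have he : (2 : ℝ) ≤ Real.exp 1 := by
    have := Real.add_one_le_exp (1 : ℝ)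
    linarith
  have htr : 2 * t ≤ r := by
    have h4 : Real.exp (Real.log t + 1) ≤ Real.exp ξ := Real.exp_le_exp.2 h2
    rw [Real.exp_add, Real.exp_log ht] at h4
    nlinarith
  have hr1 : 2 * r ≤ 1 := by
    have h4 : Real.exp ξ * Real.exp 1 ≤ 1 := by
      rw [← Real.exp_add]
      calc Real.exp (ξ + 1) ≤ Real.exp 0 := Real.exp_le_exp.2 (by linarith)
        _ = 1 := Real.exp_zero
    nlinarith
  set Z : ℂ := Complex.exp (pt ξ η) with hZ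
  have hZn : ‖Z‖ = r := by
    rw [hZ, Complex.norm_exp]
    simp [pt, hr]
  have hZ2 : ‖Z ^ 2‖ = r ^ 2 := by rw [norm_pow, hZn]
  have htn : ‖((t : ℂ)) ^ 2‖ = t ^ 2 := by
    rw [norm_pow, Complex.norm_real, Real.norm_eq_abs, sq_abs]
  have hA : 3 / 4 * r ^ 2 ≤ ‖Z ^ 2 + (t : ℂ) ^ 2‖ := by
    have h5 : ‖Z ^ 2‖ - ‖(t : ℂ) ^ 2‖ ≤ ‖Z ^ 2 + (t : ℂ) ^ 2‖ := by
      have := norm_sub_norm_le (Z ^ 2) (-((t : ℂ) ^ 2))
      rwa [norm_neg, sub_neg_eq_add] at this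
    rw [hZ2, htn] at h5
    nlinarith
  have hB : 3 / 4 ≤ ‖Z ^ 2 + 1‖ := by
    have h5 : ‖(1 : ℂ)‖ - ‖Z ^ 2‖ ≤ ‖Z ^ 2 + 1‖ := by
      have := norm_sub_norm_le (1 : ℂ) (-(Z ^ 2))
      rw [norm_neg, sub_neg_eq_add, add_comm] at this
      exact this
    rw [hZ2, norm_one] at h5
    nlinarith
  have hA0 : Z ^ 2 + (t : ℂ) ^ 2 ≠ 0 := by
    intro h
    rw [h, norm_zero] at hA
    nlinarith
  have hB0 : Z ^ 2 + 1 ≠ 0 := by
    intro h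
    rw [h, norm_zero] at hB
    linarith
  have hk : kap a (pt ξ η) - 1 =
      -(Z ^ 4 + 2 * (t : ℂ) ^ 2 * Z ^ 2 + (t : ℂ) ^ 2) /
        ((Z ^ 2 + (t : ℂ) ^ 2) * (Z ^ 2 + 1)) := by
    unfold kap
    rw [← hZ, ← htd]
    field_simp
    ring
  have hnum : ‖-(Z ^ 4 + 2 * (t : ℂ) ^ 2 * Z ^ 2 + (t : ℂ) ^ 2)‖ ≤
      r ^ 4 + 2 * t ^ 2 * r ^ 2 + t ^ 2 := by
    rw [norm_neg]
    calc ‖Z ^ 4 + 2 * (t : ℂ) ^ 2 * Z ^ 2 + (t : ℂ) ^ 2‖
        ≤ ‖Z ^ 4‖ + ‖2 * (t : ℂ) ^ 2 * Z ^ 2‖ + ‖(t : ℂ) ^ 2‖ := norm_add₃_le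
      _ = r ^ 4 + 2 * t ^ 2 * r ^ 2 + t ^ 2 := by
          rw [norm_mul, norm_mul, htn, hZ2, norm_pow, hZn]
          simp
  have hden : 9 / 16 * r ^ 2 ≤ ‖(Z ^ 2 + (t : ℂ) ^ 2) * (Z ^ 2 + 1)‖ := by
    rw [norm_mul]
    nlinarith [mul_le_mul hA hB (by norm_num) (norm_nonneg (Z ^ 2 + (t : ℂ) ^ 2))]
  have hq : ‖kap a (pt ξ η) - 1‖ ≤ 2 * (r ^ 2 + 3 * (t ^ 2 / r ^ 2)) := by
    rw [hk, norm_div]
    have hr2 : 0 < r ^ 2 := by positivity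
    have hden0 : 0 < ‖(Z ^ 2 + (t : ℂ) ^ 2) * (Z ^ 2 + 1)‖ := by
      refine lt_of_lt_of_le ?_ hden
      positivity
    rw [div_le_iff₀ hden0]
    have h6 : 2 * (r ^ 2 + 3 * (t ^ 2 / r ^ 2)) * (9 / 16 * r ^ 2) ≤
        2 * (r ^ 2 + 3 * (t ^ 2 / r ^ 2)) * ‖(Z ^ 2 + (t : ℂ) ^ 2) * (Z ^ 2 + 1)‖ :=
      mul_le_mul_of_nonneg_left hden (by positivity)
    have h7 : 2 * (r ^ 2 + 3 * (t ^ 2 / r ^ 2)) * (9 / 16 * r ^ 2) =
        9 / 8 * (r ^ 4 + 3 * t ^ 2) := by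
      field_simp
      ring
    have h8 : r ^ 4 + 2 * t ^ 2 * r ^ 2 + t ^ 2 ≤ 9 / 8 * (r ^ 4 + 3 * t ^ 2) := by
      have : t ^ 2 * r ^ 2 ≤ t ^ 2 * 1 := by
        apply mul_le_mul_of_nonneg_left _ (sq_nonneg t)
        nlinarith
      nlinarith [sq_nonneg (r ^ 2), sq_nonneg t]
    linarith
  have hE1 : Real.exp (4 * ξ) = r ^ 4 := by
    rw [hr, ← Real.exp_nat_mul]
    norm_num
  have hE2 : Real.exp (-(4 * ξ)) = (r ^ 4)⁻¹ := by
    rw [Real.exp_neg, hE1]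
  rw [hE1, hE2]
  calc ‖kap a (pt ξ η) - 1‖ ^ 2 ≤ (2 * (r ^ 2 + 3 * (t ^ 2 / r ^ 2))) ^ 2 :=
        pow_le_pow_left₀ (norm_nonneg _) hq 2
    _ ≤ 8 * (r ^ 4 + 9 * (t ^ 4 * (r ^ 4)⁻¹)) := by
        have h9 : t ^ 4 * (r ^ 4)⁻¹ = (t ^ 2 / r ^ 2) ^ 2 := by
          field_simp
        rw [h9]
        nlinarith [sq_nonneg (r ^ 2 - 3 * (t ^ 2 / r ^ 2))]

/-- E1d: the comparison function -/
theorem E1d : ∃ C : ℝ, ∀ a : ℝ, 0 < a → a < 1 → ∀ x₁ x₂ : ℝ, Real.log (tau a) + 1 ≤ x₁ →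
    x₁ ≤ x₂ → x₂ ≤ -1 → II x₁ x₂ (fun ξ η => ‖kap a (pt ξ η) - 1‖ ^ 2) ≤ C := by
  refine ⟨π * (8 * (1 / 4 + 9 * (1 / 4))), fun a h0 h1 x₁ x₂ h2 h12 h3 => ?_⟩
  have ht : 0 < tau a := tau_pos h0 h1
  set t : ℝ := tau a with htd
  have hin : ∀ ξ ∈ Ioc x₁ x₂, (∫ η in (0:ℝ)..π, ‖kap a (pt ξ η) - 1‖ ^ 2) ≤
      π * (8 * (Real.exp (4 * ξ) + 9 * (t ^ 4 * Real.exp (-(4 * ξ))))) := by
    intro ξ hξ
    rw [intervalIntegral.integral_of_le Real.pi_pos.le]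
    have h4 : (∫ η in Ioc 0 π, ‖kap a (pt ξ η) - 1‖ ^ 2) ≤
        ∫ η in Ioc 0 π, (8 * (Real.exp (4 * ξ) + 9 * (t ^ 4 * Real.exp (-(4 * ξ))))) := by
      refine integral_mono_of_nonneg (Filter.Eventually.of_forall fun η => ?_) ?_
        (Filter.Eventually.of_forall fun η => ?_)
      · exact sq_nonneg _
      · exact integrable_const _
      · exact norm_kap_sub_one h0 h1 (h2.trans hξ.1.le) (hξ.2.trans h3)
    refine h4.trans (le_of_eq ?_)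
    rw [setIntegral_const]
    simp [Real.pi_pos.le]
  have hII : II x₁ x₂ (fun ξ η => ‖kap a (pt ξ η) - 1‖ ^ 2) ≤
      ∫ ξ in x₁..x₂, π * (8 * (Real.exp (4 * ξ) + 9 * (t ^ 4 * Real.exp (-(4 * ξ))))) := by
    unfold II
    rw [intervalIntegral.integral_of_le h12, intervalIntegral.integral_of_le h12]
    refine integral_mono_of_nonneg (Filter.Eventually.of_forall fun ξ => ?_) ?_ ?_
    · exact intervalIntegral.integral_nonneg Real.pi_pos.le fun η _ => sq_nonneg _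
    · have hc : Continuous fun ξ : ℝ =>
          π * (8 * (Real.exp (4 * ξ) + 9 * (t ^ 4 * Real.exp (-(4 * ξ))))) := by
        fun_prop
      exact (hc.integrableOn_Icc (a := x₁) (b := x₂)).mono_set Ioc_subset_Icc_self
    · exact (ae_restrict_iff' measurableSet_Ioc).2 (Filter.Eventually.of_forall hin)
  refine hII.trans ?_
  have hd : ∀ ξ : ℝ, HasDerivAt (fun ξ : ℝ => π * (8 * (Real.exp (4 * ξ) / 4 -
      9 * (t ^ 4 * (Real.exp (-(4 * ξ)) / 4)))))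
      (π * (8 * (Real.exp (4 * ξ) + 9 * (t ^ 4 * Real.exp (-(4 * ξ)))))) ξ := by
    intro ξ
    have h5 : HasDerivAt (fun ξ : ℝ => Real.exp (4 * ξ)) (Real.exp (4 * ξ) * 4) ξ := by
      simpa using ((hasDerivAt_id ξ).const_mul 4).exp
    have h6 : HasDerivAt (fun ξ : ℝ => Real.exp (-(4 * ξ))) (Real.exp (-(4 * ξ)) * (-4)) ξ := by
      simpa using (((hasDerivAt_id ξ).const_mul 4).neg).exp
    have h7 := (((h5.div_const 4).sub (((h6.div_const 4).const_mul (t ^ 4)).const_mul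
      9)).const_mul 8).const_mul π
    refine h7.congr_deriv ?_
    ring
  rw [intervalIntegral.integral_eq_sub_of_hasDerivAt (fun ξ _ => hd ξ)]
  · have e1 : Real.exp (4 * x₂) ≤ 1 := by
      rw [← Real.exp_zero]
      exact Real.exp_le_exp.2 (by linarith)
    have e2 : t ^ 4 * Real.exp (-(4 * x₁)) ≤ 1 := by
      have h8 : t ^ 4 = Real.exp (4 * Real.log t) := by
        rw [mul_comm, Real.exp_mul, Real.exp_log ht]
        norm_cast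
      rw [h8, ← Real.exp_add, ← Real.exp_zero]
      exact Real.exp_le_exp.2 (by linarith)
    have e3 : 0 < Real.exp (4 * x₁) := Real.exp_pos _
    have e4 : 0 < t ^ 4 * Real.exp (-(4 * x₂)) := by positivity
    have hpi := Real.pi_pos
    have key : 8 * (Real.exp (4 * x₂) / 4 - 9 * (t ^ 4 * (Real.exp (-(4 * x₂)) / 4))) -
        8 * (Real.exp (4 * x₁) / 4 - 9 * (t ^ 4 * (Real.exp (-(4 * x₁)) / 4))) ≤
        8 * (1 / 4 + 9 * (1 / 4)) := by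
      have e5 : t ^ 4 * (Real.exp (-(4 * x₂)) / 4) = t ^ 4 * Real.exp (-(4 * x₂)) / 4 := by ring
      have e6 : t ^ 4 * (Real.exp (-(4 * x₁)) / 4) = t ^ 4 * Real.exp (-(4 * x₁)) / 4 := by ring
      rw [e5, e6]
      linarith
    calc _ = π * (8 * (Real.exp (4 * x₂) / 4 - 9 * (t ^ 4 * (Real.exp (-(4 * x₂)) / 4))) -
        8 * (Real.exp (4 * x₁) / 4 - 9 * (t ^ 4 * (Real.exp (-(4 * x₁)) / 4)))) := by ring
      _ ≤ _ := mul_le_mul_of_nonneg_left key hpi.le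
  · have hc : Continuous fun ξ : ℝ =>
        π * (8 * (Real.exp (4 * ξ) + 9 * (t ^ 4 * Real.exp (-(4 * ξ))))) := by
      fun_prop
    exact hc.intervalIntegrable _ _

end Pool.Agent.Helper16.EK
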